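import Pool.Agent.Lib.MP_15dca6_an.Main

open Pool.Agent.Lib.MP_15dca6_an

namespace Pool.Agent.Results.MP_15dca6_an.EssSpectrumConnected

/-- Let `T` be a bounded operator on an infinite-dimensional complex Banach space (for example a
separable Hilbert space) all of whose nontrivial closed invariant subspaces have finite
codimension. Then the essential spectrum of `T` is connected (and nonempty); in particular it is
never the boundary of an annulus. -/
theorem result {E : Type*} [NormedAddCommGroup E] [NormedSpace ℂ E] [CompleteSpace E]
    (hE : ¬ FiniteDimensional ℂ E) (T : E →L[ℂ] E) (hT : OnlyFiniteCodim T) :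
    IsConnected (essentialSpectrum T) ∧
      ∀ (c : ℂ) (r R : ℝ), 0 < r → r < R →
        essentialSpectrum T ≠ Metric.sphere c r ∪ Metric.sphere c R :=
  ⟨main T hE hT, fun c r R hr hR h =>
    annulus_boundary c r R hr hR (h ▸ (main T hE hT).isPreconnected)⟩

end Pool.Agent.Results.MP_15dca6_an.EssSpectrumConnected
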